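import Mathlib

set_option autoImplicit false

namespace Pool.Agent.Lib.MP_eb1ac4_co

open Finset

/-- The 3-uniform diagonal Ramsey number. -/
noncomputable def R (n : ℕ) : ℕ :=
  sInf {N : ℕ | ∀ c : Finset (Fin N) → Bool, ∃ b : Bool, ∃ S : Finset (Fin N),
    S.card = n ∧ ∀ e ⊆ S, e.card = 3 → c e = b}

/-- Every 2-colouring of `H` has a monochromatic clique on `n` vertices. -/
def Arrows {V : Type} (H : Finset (Finset V)) (n : ℕ) : Prop :=
  ∀ c : Finset V → Bool, ∃ b : Bool, ∃ S : Finset V,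
    S.card = n ∧ ∀ e ⊆ S, e.card = 3 → e ∈ H ∧ c e = b

lemma exists_good {n k : ℕ} (h : k < R n) : ∃ c : Finset (Fin k) → Bool,
    ∀ (b : Bool) (S : Finset (Fin k)), S.card = n → ∃ e ⊆ S, e.card = 3 ∧ c e ≠ b := by
  have := Nat.notMem_of_lt_sInf h
  simp only [Set.mem_ofPred_eq] at this
  push Not at this
  exact this

variable {V : Type} [DecidableEq V]

omit [DecidableEq V] in
/-- A set on which `f` is injective, all of whose triples get the same colour, is small. -/
lemma no_mono {W : Type} [DecidableEq W] {n : ℕ} {χ : Finset W → Bool}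
    (hχ : ∀ (b : Bool) (S : Finset W), S.card = n → ∃ e ⊆ S, e.card = 3 ∧ χ e ≠ b)
    {S : Finset V} {f : V → W} (hf : Set.InjOn f S) (hS : n ≤ S.card) (b : Bool)
    (h : ∀ e ⊆ S, e.card = 3 → χ (e.image f) = b) : False := by
  obtain ⟨T, hT, hn⟩ := exists_subset_card_eq hS
  obtain ⟨e, he, h3, hb⟩ := hχ b (T.image f)
    (by rw [card_image_of_injOn (hf.mono (by exact_mod_cast hT)), hn])
  obtain ⟨e', he', rfl⟩ := subset_image_iff.1 he
  refine hb (h e' (he'.trans hT) ?_)
  rwa [card_image_of_injOn (hf.mono (by exact_mod_cast he'.trans hT))] at h3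

/-- A hypergraph arrowing the clique on `n + 1` vertices has chromatic number at least `R n`. -/
theorem chrom {H : Finset (Finset V)} {n k : ℕ} (hA : Arrows H (n + 1)) (f : V → Fin k)
    (hf : ∀ e ∈ H, ∃ x ∈ e, ∃ y ∈ e, f x ≠ f y) : R n ≤ k := by
  by_contra hk
  obtain ⟨χ, hχ⟩ := exists_good (not_le.1 hk)
  obtain ⟨b, S, hS, h⟩ := hA fun e => if (e.image f).card = 3 then χ (e.image f) else
    decide (∃ x ∈ e, ∃ x' ∈ e, ∃ y ∈ e, x ≠ x' ∧ f x = f x' ∧ f x < f y)
  have c2 : ∀ x x' y : V, f x = f x' → (({x, x', y} : Finset V).image f).card ≠ 3 := by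
    intro x x' y hx
    have : (({x, x', y} : Finset V).image f).card ≤ 2 := by
      simp only [image_insert, image_singleton, hx, insert_eq_of_mem (mem_insert_self _ _)]
      exact card_le_two
    omega
  have key : ∀ x ∈ S, ∀ x' ∈ S, ∀ y ∈ S, ∀ y' ∈ S, x ≠ x' → y ≠ y' → f x = f x' → f y = f y' →
      ¬ f x < f y := by
    intro x hx x' hx' y hy y' hy' h1 h2 h3 h4 h5
    have a1 : x ≠ y := fun e => by rw [e] at h5; exact h5.false
    have a2 : x' ≠ y := fun e => by rw [h3, e] at h5; exact h5.false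
    have a3 : y' ≠ x := fun e => by rw [h4, e] at h5; exact h5.false
    have b1 := (h {x, x', y} (by simp [insert_subset_iff, *])
      (card_eq_three.2 ⟨_, _, _, h1, a1, a2, rfl⟩)).2
    have b2 := (h {y, y', x} (by simp [insert_subset_iff, *])
      (card_eq_three.2 ⟨_, _, _, h2, a1.symm, a3, rfl⟩)).2
    rw [if_neg (c2 _ _ _ h3), decide_eq_true ⟨x, by simp, x', by simp, y, by simp, h1, h3, h5⟩] at b1
    rw [if_neg (c2 _ _ _ h4), ← b1, decide_eq_true_eq] at b2
    obtain ⟨u, hu, u', hu', w, hw, d1, d2, d3⟩ := b2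
    simp only [mem_insert, mem_singleton] at hu hu' hw
    rcases hu with rfl | rfl | rfl <;> rcases hu' with rfl | rfl | rfl <;>
      rcases hw with rfl | rfl | rfl <;> first | exact d1 rfl | omega
  obtain ⟨T, hT, h1, h2⟩ : ∃ T ⊆ S, n ≤ T.card ∧ Set.InjOn f T := by
    by_cases hi : Set.InjOn f S
    · exact ⟨S, subset_rfl, by omega, hi⟩
    obtain ⟨x, hx, x', hx', h3, h4⟩ : ∃ x ∈ S, ∃ x' ∈ S, f x = f x' ∧ x ≠ x' := by
      simpa [Set.InjOn] using hi
    refine ⟨S.erase x, erase_subset _ _, by rw [card_erase_of_mem hx]; omega, ?_⟩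
    intro y hy y' hy' h5
    by_contra h6
    rw [mem_coe, mem_erase] at hy hy'
    rcases lt_trichotomy (f x) (f y) with h7 | h7 | h7
    · exact key x hx x' hx' y hy.2 y' hy'.2 h4 h6 h3 h5 h7
    · obtain ⟨u, hu, w, hw, h8⟩ := hf _ (h {x, y, y'} (by simp [insert_subset_iff, *])
        (card_eq_three.2 ⟨_, _, _, hy.1.symm, hy'.1.symm, h6, rfl⟩)).1
      simp only [mem_insert, mem_singleton] at hu hw
      rcases hu with rfl | rfl | rfl <;> rcases hw with rfl | rfl | rfl <;> omega
    · exact key y hy.2 y' hy'.2 x hx x' hx' h6 h4 h5 h3 h7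
  refine no_mono hχ h2 h1 b fun e he h3 => ?_
  have := (h e (he.trans hT) h3).2
  rwa [if_pos (by rw [card_image_of_injOn (h2.mono (by exact_mod_cast he)), h3])] at this

/-- Some colouring with `a` colours has few monochromatic edges. -/
lemma exists_few [Fintype V] (H : Finset (Finset V)) (h3 : ∀ e ∈ H, e.card = 3) {a : ℕ}
    (ha : 0 < a) : ∃ g : V → Fin a,
      a ^ 2 * (H.filter fun e => ∀ x ∈ e, ∀ y ∈ e, g x = g y).card ≤ H.card := by
  have : NeZero a := ⟨ha.ne'⟩
  have h1 : ∀ e ∈ H, a ^ 2 * (univ.filter fun g : V → Fin a => ∀ x ∈ e, ∀ y ∈ e, g x = g y).card ≤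
      Fintype.card (V → Fin a) := by
    intro e he
    obtain ⟨x, y, z, hxy, hxz, hyz, rfl⟩ := card_eq_three.1 (h3 e he)
    have := card_le_card_of_injOn (s := (univ : Finset (Fin a × Fin a)) ×ˢ
      (univ.filter fun g : V → Fin a => ∀ u ∈ ({x, y, z} : Finset V), ∀ v ∈ ({x, y, z} : Finset V),
        g u = g v)) (t := univ)
      (fun p => Function.update (Function.update p.2 y p.1.1) z p.1.2) (fun _ _ => by simp) (by
        rintro ⟨⟨i, j⟩, g⟩ hg ⟨⟨i', j'⟩, g'⟩ hg' h
        simp only [coe_product, coe_filter, Set.mem_prod, Set.mem_ofPred_eq] at hg hg'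
        have e1 := congrFun h x
        have e2 := congrFun h y
        have e3 := congrFun h z
        simp only [Function.update_of_ne hxy, Function.update_of_ne hxz,
          Function.update_of_ne hyz, Function.update_self] at e1 e2 e3
        subst e2 e3
        congr 1
        funext v
        by_cases hv : v = y
        · rw [hv, hg.2.2 y (by simp) x (by simp), hg'.2.2 y (by simp) x (by simp), e1]
        by_cases hv' : v = z
        · rw [hv', hg.2.2 z (by simp) x (by simp), hg'.2.2 z (by simp) x (by simp), e1]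
        simpa [Function.update_of_ne hv, Function.update_of_ne hv'] using congrFun h v)
    simpa [card_product, sq] using this
  have h2 : ∑ g : V → Fin a, a ^ 2 * (H.filter fun e => ∀ x ∈ e, ∀ y ∈ e, g x = g y).card ≤
      ∑ _g : V → Fin a, H.card := by
    simp only [card_filter] at h1 ⊢
    rw [← mul_sum, sum_comm, mul_sum, sum_const, smul_eq_mul, mul_comm, ← smul_eq_mul]
    exact sum_le_card_nsmul _ _ _ h1
  obtain ⟨g, -, hg⟩ := exists_le_of_sum_le univ_nonempty h2
  exact ⟨g, hg⟩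

/-- Alon's recolouring argument. -/
theorem alon [Fintype V] {H : Finset (Finset V)} (h3 : ∀ e ∈ H, e.card = 3) {r : ℕ}
    (hr : ∀ (k : ℕ) (f : V → Fin k), (∀ e ∈ H, ∃ x ∈ e, ∃ y ∈ e, f x ≠ f y) → r ≤ k) (a : ℕ) :
    a ^ 2 * (2 * (r - a) - 1) ≤ H.card := by
  classical
  rcases a.eq_zero_or_pos with rfl | ha
  · simp
  obtain ⟨g, hg⟩ := exists_few H h3 ha
  set M := H.filter fun e => ∀ x ∈ e, ∀ y ∈ e, g x = g y
  have h1 : ∀ e : M, ∃ x, x ∈ e.1 := fun e =>
    card_pos.1 (by rw [h3 _ (mem_filter.1 e.2).1]; omega)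
  choose p hp using h1
  let U : Finset V := univ.image p
  have hU : U.card ≤ M.card := card_image_le.trans (by simp)
  let idx : U ≃ Fin U.card := U.equivFin
  let f : V → Fin (a + (U.card + 1) / 2) := fun v =>
    if h : v ∈ U then ⟨a + (idx ⟨v, h⟩).1 / 2, by have := (idx ⟨v, h⟩).2; omega⟩
    else ⟨(g v).1, by have := (g v).2; omega⟩
  have h2 := hr _ f fun e he => by
    by_contra hc
    push Not at hc
    by_cases hM : ∀ v ∈ e, v ∈ U
    · obtain ⟨x, y, z, hxy, hxz, hyz, rfl⟩ := card_eq_three.1 (h3 e he)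
      have hx := hM x (by simp)
      have hy := hM y (by simp)
      have hz := hM z (by simp)
      have e1 := congrArg Fin.val (hc x (by simp) y (by simp))
      have e2 := congrArg Fin.val (hc x (by simp) z (by simp))
      simp only [f, dif_pos hx, dif_pos hy, dif_pos hz] at e1 e2
      have n1 : ∀ u v (hu : u ∈ U) (hv : v ∈ U), u ≠ v → (idx ⟨u, hu⟩).1 ≠ (idx ⟨v, hv⟩).1 :=
        fun u v hu hv h h' => h (congrArg Subtype.val (idx.injective (Fin.ext h')))
      have := n1 x y hx hy hxy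
      have := n1 x z hx hz hxz
      have := n1 y z hy hz hyz
      omega
    · push Not at hM
      obtain ⟨v, hv, hvU⟩ := hM
      have h4 : ∀ u ∈ e, u ∉ U := fun u hu huU => by
        have e1 := congrArg Fin.val (hc u hu v hv)
        simp only [f, dif_pos huU, dif_neg hvU] at e1
        have := (g v).2
        omega
      have h5 : e ∈ M := mem_filter.2 ⟨he, fun x hx y hy => by
        have e1 := congrArg Fin.val (hc x hx y hy)
        simp only [f, dif_neg (h4 x hx), dif_neg (h4 y hy)] at e1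
        exact Fin.ext e1⟩
      exact h4 _ (hp ⟨e, h5⟩) (mem_image_of_mem _ (mem_univ _))
  exact (Nat.mul_le_mul_left _ (by omega)).trans hg

theorem shift [Fintype V] {H : Finset (Finset V)} (h3 : ∀ e ∈ H, e.card = 3) {n : ℕ}
    (hA : Arrows H (n + 1)) : 8 * R n ^ 3 ≤ 27 * H.card + 12 * R n ^ 2 := by
  have h := alon h3 fun k f hf => chrom hA f hf
  generalize R n = r at h ⊢
  obtain ⟨s, rfl | rfl | rfl⟩ : ∃ s, r = 3 * s ∨ r = 3 * s + 1 ∨ r = 3 * s + 2 := ⟨r / 3, by omega⟩
  · rcases s with _ | s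
    · simp
    have := h (2 * (s + 1))
    rw [show 2 * (3 * (s + 1) - 2 * (s + 1)) - 1 = 2 * s + 1 by omega] at this
    nlinarith
  · have := h (2 * s)
    rw [show 2 * (3 * s + 1 - 2 * s) - 1 = 2 * s + 1 by omega] at this
    nlinarith
  · have := h (2 * s + 1)
    rw [show 2 * (3 * s + 2 - (2 * s + 1)) - 1 = 2 * s + 1 by omega] at this
    nlinarith

end Pool.Agent.Lib.MP_eb1ac4_co
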