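import Mathlib

set_option autoImplicit false

namespace Pool.Agent.Lib.MP_eb1ac4_co

open Finset

open Classical in
/-- Counting form of the local lemma, with weights. -/
theorem rosenfeld {V C Ev : Type} [Fintype V] [DecidableEq V] [Fintype C] [Inhabited C]
    (I : Finset Ev) (supp : Ev → Finset V) (bad : Ev → (V → C) → Prop) (wt : Ev → ℝ) {β : ℝ}
    (hβ : 0 < β)
    (dep : ∀ b ∈ I, ∀ r r', (∀ u ∈ supp b, r u = r' u) → bad b r → bad b r')
    (ne : ∀ b ∈ I, ∀ r, bad b r → (supp b).Nonempty)
    (hD : ∀ b ∈ I, ∀ v ∈ supp b, ∃ D : Finset V, v ∉ D ∧ D ⊆ supp b ∧ ∀ r₀ : V → C,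
      (#{r : V → C | (∀ u ∉ insert v D, r u = r₀ u) ∧ bad b r} : ℝ) ≤ wt b * β ^ #D)
    (hs : ∀ v, β + ∑ b ∈ I with v ∈ supp b, wt b ≤ Fintype.card C) :
    ∃ r, ∀ b ∈ I, ¬ bad b r := by
  let G : Finset V → Finset (V → C) := fun F =>
    {r | (∀ u ∉ F, r u = default) ∧ ∀ b ∈ I, supp b ⊆ F → ¬ bad b r}
  have mG : ∀ F r, r ∈ G F ↔ (∀ u ∉ F, r u = default) ∧ ∀ b ∈ I, supp b ⊆ F → ¬ bad b r := by
    simp [G]
  have main : ∀ n, ∀ (F : Finset V) v, #F = n → v ∉ F → β * #(G F) ≤ #(G (insert v F)) := by
    intro n
    induction n using Nat.strong_induction_on with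
    | _ n ih =>
    intro F v hn hv
    have inner : ∀ D : Finset V, D ⊆ F → β ^ #D * #(G (F \ D)) ≤ #(G F) := by
      intro D
      induction D using Finset.induction_on with
      | empty => simp
      | insert d D hd ihD =>
        intro h1
        have a1 := ihD ((subset_insert _ _).trans h1)
        have a2 : insert d (F \ insert d D) = F \ D := by
          have := h1 (mem_insert_self d D)
          ext x
          by_cases hx : x = d <;> simp [*]
        have a3 := ih #(F \ insert d D) (by
          rw [← hn]
          exact card_lt_card ⟨sdiff_subset, fun h => by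
            have := h (h1 (mem_insert_self d D)); simp at this⟩) _ d rfl (by simp)
        rw [a2] at a3
        rw [card_insert_of_notMem hd, pow_succ, mul_assoc]
        exact (mul_le_mul_of_nonneg_left a3 (by positivity)).trans a1
    let Bad : Ev → Finset (V → C) := fun b =>
      {r | supp b ⊆ insert v F ∧ (∀ u ∉ insert v F, r u = default) ∧
        Function.update r v default ∈ G F ∧ bad b r}
    have hBad : ∀ b ∈ I.filter (fun b => v ∈ supp b), (#(Bad b) : ℝ) ≤ wt b * #(G F) := by
      intro b hb
      rw [mem_filter] at hb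
      obtain ⟨D, d1, d2, d3⟩ := hD b hb.1 v hb.2
      have w0 : 0 ≤ wt b := by
        have := (Nat.cast_nonneg _).trans (d3 default)
        exact nonneg_of_mul_nonneg_left this (by positivity)
      by_cases h3 : supp b ⊆ insert v F
      swap
      · have : Bad b = ∅ := by simp [Bad, h3]
        rw [this, card_empty, Nat.cast_zero]
        positivity
      have a1 := inner D fun x hx => (mem_insert.1 (h3 (d2 hx))).resolve_left fun h => d1 (h ▸ hx)
      let π : (V → C) → V → C := fun r x => if x ∈ F \ D then r x else default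
      have a2 : (Bad b : Set (V → C)).MapsTo π (G (F \ D)) := by
        intro r hr
        obtain ⟨-, -, b1, -⟩ := (mem_filter.1 hr).2
        refine (mG _ _).2 ⟨fun x hx => if_neg hx, fun b' hb' hs hb =>
          ((mG _ _).1 b1).2 b' hb' (hs.trans sdiff_subset) (dep b' hb' _ _ (fun x hx => ?_) hb)⟩
        simp only [π]
        rw [if_pos (hs hx), Function.update_of_ne]
        rintro rfl
        exact hv (sdiff_subset (hs hx))
      rw [card_eq_sum_card_fiberwise a2, Nat.cast_sum]
      refine (sum_le_card_nsmul _ _ (wt b * β ^ #D) fun r₀ _ => (Nat.cast_le.2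
        (card_le_card fun r hr => ?_)).trans (d3 r₀)).trans ?_
      · obtain ⟨hr', rfl⟩ := mem_filter.1 hr
        obtain ⟨-, b1, -, b2⟩ := (mem_filter.1 hr').2
        refine mem_filter.2 ⟨mem_univ _, fun u hu => ?_, b2⟩
        rw [mem_insert, not_or] at hu
        by_cases huF : u ∈ F
        · simp [π, huF, hu.2]
        · simp [π, huF, b1 u (by simp [hu.1, huF])]
      · rw [nsmul_eq_mul, mul_comm, mul_assoc]
        exact mul_le_mul_of_nonneg_left a1 w0
    have cover : #(G F ×ˢ (univ : Finset C)) ≤
        #(G (insert v F) ∪ (I.filter fun b => v ∈ supp b).biUnion Bad) := by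
      refine card_le_card_of_injOn (fun p => Function.update p.1 v p.2) ?_ ?_
      · rintro ⟨r, a⟩ hr
        obtain ⟨h1, h2⟩ := (mG _ _).1 (mem_product.1 hr).1
        simp only at h1 h2 ⊢
        have z1 : ∀ f ∉ insert v F, Function.update r v a f = default := by
          intro f hf
          rw [mem_insert, not_or] at hf
          rw [Function.update_of_ne hf.1, h1 f hf.2]
        rw [mem_coe, mem_union]
        by_cases hc : ∀ b ∈ I, supp b ⊆ insert v F → ¬ bad b (Function.update r v a)
        · exact Or.inl ((mG _ _).2 ⟨z1, hc⟩)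
        · right
          push Not at hc
          obtain ⟨b, b1, b2, b3⟩ := hc
          have b4 : v ∈ supp b := by
            by_contra hn
            refine h2 b b1 (fun x hx => (mem_insert.1 (b2 hx)).resolve_left ?_)
              (dep b b1 _ _ (fun x hx => Function.update_of_ne ?_ _ _) b3)
            · rintro rfl; exact hn hx
            · rintro rfl; exact hn hx
          refine mem_biUnion.2 ⟨b, mem_filter.2 ⟨b1, b4⟩, mem_filter.2 ⟨mem_univ _, b2, z1, ?_, b3⟩⟩
          rw [Function.update_idem, ← h1 v hv, Function.update_eq_self]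
          exact (mG _ _).2 ⟨h1, h2⟩
      · rintro ⟨r, a⟩ hr ⟨r', a'⟩ hr' h
        have h1 := ((mG _ _).1 (mem_product.1 hr).1).1
        have h1' := ((mG _ _).1 (mem_product.1 hr').1).1
        simp only at h1 h1' h
        refine Prod.ext (funext fun x => ?_) (by simpa using congrFun h v)
        by_cases hx : x = v
        · subst hx; exact (h1 x hv).trans (h1' x hv).symm
        · simpa [Function.update_of_ne hx] using congrFun h x
    have c2 := cover.trans ((card_union_le _ _).trans (Nat.add_le_add_left card_biUnion_le _))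
    rw [card_product, card_univ, ← Nat.cast_le (α := ℝ)] at c2
    push_cast at c2
    have c3 := sum_le_sum hBad
    rw [← sum_mul] at c3
    have c4 := mul_le_mul_of_nonneg_right (hs v) (Nat.cast_nonneg (α := ℝ) #(G F))
    nlinarith
  have pos : ∀ F : Finset V, 0 < #(G F) := by
    intro F
    induction F using Finset.induction_on with
    | empty =>
      exact card_pos.2 ⟨fun _ => default, (mG _ _).2 ⟨fun _ _ => rfl, fun b hb hs h =>
        (ne b hb _ h).ne_empty (subset_empty.1 hs)⟩⟩
    | insert v F hv ih =>
      have := main _ F v rfl hv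
      have h : (0 : ℝ) < β * #(G F) := by positivity
      exact_mod_cast h.trans_le this
  obtain ⟨r, hr⟩ := card_pos.1 (pos univ)
  exact ⟨r, fun b hb => ((mG _ _).1 hr).2 b hb (subset_univ _)⟩

end Pool.Agent.Lib.MP_eb1ac4_co
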