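import Pool.Agent.Lib.MP_eb1ac4_co.Twin

set_option autoImplicit false

namespace Pool.Agent.Lib.MP_eb1ac4_co

open Finset

/-- The complete hypergraph on `N` vertices arrows the clique on `n` vertices. -/
def Good (n N : ℕ) : Prop := ∀ c : Finset (Fin N) → Bool, ∃ b : Bool, ∃ S : Finset (Fin N),
  S.card = n ∧ ∀ e ⊆ S, e.card = 3 → c e = b

lemma Good.mono {n n' N : ℕ} (h : Good n N) (hn : n' ≤ n) : Good n' N := fun c => by
  obtain ⟨b, S, hS, h⟩ := h c
  obtain ⟨T, hT, h1⟩ := exists_subset_card_eq (hS ▸ hn : n' ≤ #S)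
  exact ⟨b, T, h1, fun e he => h e (he.trans hT)⟩

lemma Good.R {n N : ℕ} (h : Good n N) : Good n (R n) := Nat.sInf_mem (s := {N | Good n N}) ⟨N, h⟩

lemma Good.R_le {n N : ℕ} (h : Good n N) : MP_eb1ac4_co.R n ≤ N :=
  Nat.sInf_le (s := {N | Good n N}) h

lemma Good.double {n N : ℕ} (h : Good (n + 1) N) : 2 * MP_eb1ac4_co.R n ≤ N + 1 := by
  have := chrom (H := powersetCard 3 (univ : Finset (Fin N))) (n := n) (k := (N + 1) / 2)
    (fun c => by
      obtain ⟨b, S, hS, h⟩ := h c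
      exact ⟨b, S, hS, fun e he h3 => ⟨by simp [h3], h e he h3⟩⟩)
    (fun v => ⟨v / 2, by have := v.2; omega⟩) fun e he => by
      obtain ⟨x, y, z, h1, h2, h3, rfl⟩ := card_eq_three.1 (mem_powersetCard.1 he).2
      by_contra hc
      push Not at hc
      have a1 := congrArg Fin.val (hc x (by simp) y (by simp))
      have a2 := congrArg Fin.val (hc x (by simp) z (by simp))
      simp only [ne_eq, Fin.ext_iff] at a1 a2 h1 h2 h3
      omega
  omega

lemma Good.pow_lt {n N : ℕ} (h : Good (n + 2) N) : 2 ^ n < N := by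
  induction n generalizing N with
  | zero =>
    obtain ⟨b, S, hS, -⟩ := h fun _ => true
    have := card_le_univ S
    rw [Fintype.card_fin] at this
    omega
  | succ n ih =>
    have h1 := ih (h.mono (Nat.le_succ _)).R
    have h2 := h.double
    rw [pow_succ]
    omega

/-- `n` is exceptional at level `k`. -/
def Exc (k n : ℕ) : Prop := ∃ (m : ℕ) (H : Finset (Finset (Fin m))), (∀ e ∈ H, #e = 3) ∧
  Arrows H n ∧ #H < 2 ^ k * R n ^ 2

lemma Exc.good {k n : ℕ} (h : Exc k n) : Good n (R n) := by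
  obtain ⟨m, H, -, hA, -⟩ := h
  refine Good.R (N := m) fun c => ?_
  obtain ⟨b, S, hS, h⟩ := hA c
  exact ⟨b, S, hS, fun e he h3 => (h e he h3).2⟩

lemma Exc.jump {k n : ℕ} (h : Exc k (n + 1)) (hn : 3 * k + 8 ≤ n) : R n ^ 4 ≤ R (n + 1) ^ 3 := by
  have h1 : 2 ^ (3 * k + 6) < R n := ((h.good.mono (Nat.le_succ _)).R.mono hn).pow_lt
  obtain ⟨m, H, h3, hA, h⟩ := h
  have h2 := shift h3 hA
  generalize R n = a at *
  generalize R (n + 1) = r at *
  have h4 : 2 ^ 6 ≤ a := le_trans (Nat.pow_le_pow_right (by norm_num) (by omega)) h1.le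
  have h5 : a ^ 3 ≤ 2 ^ (k + 2) * r ^ 2 := by
    have : 12 * a ^ 2 ≤ a ^ 3 := by
      rw [pow_succ a 2, mul_comm]
      exact Nat.mul_le_mul_left _ (by omega)
    rw [pow_add, mul_right_comm]
    omega
  have h6 : a * (a ^ 4) ^ 2 ≤ a * (r ^ 3) ^ 2 :=
    calc _ = (a ^ 3) ^ 3 := by ring
      _ ≤ (2 ^ (k + 2) * r ^ 2) ^ 3 := by gcongr
      _ = 2 ^ (3 * k + 6) * (r ^ 3) ^ 2 := by ring
      _ ≤ _ := by gcongr
  exact (Nat.pow_le_pow_iff_left (by norm_num)).1 (Nat.le_of_mul_le_mul_left h6 (by omega))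

lemma Exc.lt {k n : ℕ} (h : Exc k n) (hn : 3 ≤ n) : R n < 2 ^ 4 ^ (k + 15) := by
  obtain ⟨m, H, h3, hA, h⟩ := h
  by_contra hc
  have h1 := sqrt_bound h3 hn hA (D := 2 ^ (k + 14)) (by positivity)
    (le_trans (le_of_eq (by
      rw [show 16 = 2 ^ 4 by norm_num, ← pow_mul, show (4 : ℕ) ^ (k + 15) = (2 * 2) ^ (k + 14) * 4 by
        rw [← pow_succ], mul_pow, mul_comm])) (not_lt.1 hc))
  rw [pow_add, mul_right_comm] at h1
  omega

theorem few (k : ℕ) (T : Finset ℕ) (hT : ∀ n ∈ T, Exc k n) : #T ≤ 8 * k + 83 := by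
  have h1 : #(T.filter (· ≤ 3 * k + 8)) ≤ 3 * k + 9 :=
    (card_le_card fun n hn => mem_range.2 (by have := (mem_filter.1 hn).2; omega)).trans
      (card_range (3 * k + 9)).le
  set U := T.filter fun n => ¬ n ≤ 3 * k + 8 with hU
  have h2 : #(T.filter (· ≤ 3 * k + 8)) + #U = #T := card_filter_add_card_filter_not _
  rcases U.eq_empty_or_nonempty with h | h
  · rw [h] at h2
    simp only [card_empty] at h2
    omega
  have h3 := mem_filter.1 (U.max'_mem h)
  have h4 := hT _ h3.1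
  have key : ∀ y, 3 * k + 8 ≤ y → y ≤ U.max' h →
      2 ^ 4 ^ #(U.filter (· ≤ y)) ≤ R y ^ 3 ^ #(U.filter (· ≤ y)) := by
    intro y hy
    induction y, hy using Nat.le_induction with
    | base =>
      intro hy
      have : U.filter (· ≤ 3 * k + 8) = ∅ :=
        filter_eq_empty_iff.2 fun n hn => (mem_filter.1 hn).2
      have a := ((h4.good.mono hy).R.mono (show 0 + 2 ≤ 3 * k + 8 by omega)).pow_lt
      rw [this]
      simp only [card_empty, pow_zero, pow_one] at a ⊢
      omega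
    | succ y hy ih =>
      intro hy'
      have a := ih (by omega)
      by_cases hm : y + 1 ∈ U
      · have : U.filter (· ≤ y + 1) = insert (y + 1) (U.filter (· ≤ y)) := by
          ext n
          simp only [mem_filter (s := U), mem_insert]
          constructor
          · rintro ⟨b, c⟩
            rcases c.eq_or_lt with c | c
            exacts [Or.inl c, Or.inr ⟨b, by omega⟩]
          · rintro (rfl | ⟨b, c⟩)
            exacts [⟨hm, le_rfl⟩, ⟨b, by omega⟩]
        rw [this, card_insert_of_notMem (by simp), pow_succ 4, pow_mul, pow_succ' 3, pow_mul (R _)]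
        refine (Nat.pow_le_pow_left a 4).trans ?_
        rw [← pow_mul, mul_comm, pow_mul]
        exact Nat.pow_le_pow_left ((hT _ (mem_filter.1 hm).1).jump hy) _
      · have : U.filter (· ≤ y + 1) = U.filter (· ≤ y) := filter_congr fun n hn =>
          ⟨fun c => Nat.le_of_lt_succ (c.lt_of_ne (by rintro rfl; exact hm hn)), fun c => by omega⟩
        rw [this]
        exact a.trans (Nat.pow_le_pow_left ((h4.good.mono hy').R.mono (Nat.le_succ _)).R_le _)
  have h5 := key _ (by omega) le_rfl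
  rw [filter_true_of_mem fun n hn => U.le_max' n hn] at h5
  have h6 := h5.trans_lt (Nat.pow_lt_pow_left (h4.lt (by omega)) (by positivity))
  rw [← pow_mul, Nat.pow_lt_pow_iff_right (by norm_num)] at h6
  by_contra hc
  obtain ⟨s, hs⟩ : ∃ s, #U = 5 * (k + 15) + s := ⟨#U - 5 * (k + 15), by omega⟩
  rw [hs, pow_add 4 _ s, pow_add 3 _ s, pow_mul, pow_mul, ← mul_assoc, ← mul_pow] at h6
  exact h6.not_ge (by gcongr <;> norm_num)

end Pool.Agent.Lib.MP_eb1ac4_co
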