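import Pool.Agent.Lib.MP_eb1ac4_co.Count

set_option autoImplicit false

namespace Pool.Agent.Lib.MP_eb1ac4_co

open Finset

variable {V : Type} [Fintype V] [DecidableEq V]

open Classical in
/-- The counting lemma, after giving private colours to the vertices of large weight. -/
theorem reserve {Ev : Type} {q N : ℕ} (hq : 0 < q) (hN : 2 * q ≤ N) (I : Finset Ev)
    (supp : Ev → Finset V) (bad : Ev → (V → Fin N) → Prop) (wt : Ev → ℝ) (w0 : ∀ b, 0 ≤ wt b)
    (dep : ∀ b ∈ I, ∀ r r', (∀ u ∈ supp b, r u = r' u) → bad b r → bad b r')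
    (col : ∀ b ∈ I, ∀ r, bad b r → ∃ x ∈ supp b, ∃ x', x ≠ x' ∧ r x = r x')
    (tot : ∑ b ∈ I, wt b * #(supp b) ≤ q / 2 * q)
    (hD : ∀ (W : Finset V) (φ : (V → Fin q) → V → Fin N),
      (∀ r r' u, r u = r' u → φ r u = φ r' u) → (∀ r r' u, u ∉ W → φ r u = φ r' u → r u = r' u) →
      (∀ r u u', φ r u = φ r u' → u ≠ u' → u ∉ W ∧ u' ∉ W ∧ r u = r u') →
      ∀ b ∈ I, ∀ v ∈ supp b, ∀ r₁, bad b (φ r₁) → ∃ D : Finset V, v ∉ D ∧ D ⊆ supp b \ W ∧
        ∀ r₀ : V → Fin q, ({r : V → Fin q | (∀ u ∉ insert v D, r u = r₀ u) ∧ bad b (φ r)}.ncard : ℝ) ≤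
          wt b * (q / 2) ^ #D) :
    ∃ r, ∀ b ∈ I, ¬ bad b r := by
  have hq' : (0 : ℝ) < q / 2 := by positivity
  let W : Finset V := {v | (q / 2 : ℝ) < ∑ b ∈ I with v ∈ supp b, wt b}
  have hW : #W ≤ q := by
    have h1 : ∑ v, ∑ b ∈ I with v ∈ supp b, wt b = ∑ b ∈ I, wt b * #(supp b) := by
      simp only [sum_filter]
      rw [sum_comm]
      refine sum_congr rfl fun b _ => ?_
      rw [← sum_filter, sum_const, nsmul_eq_mul, mul_comm]
      simp
    have h2 := (card_nsmul_le_sum W _ (q / 2 : ℝ) fun v hv => (mem_filter.1 hv).2.le).trans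
      ((sum_le_sum_of_subset_of_nonneg (subset_univ W) fun v _ _ =>
        sum_nonneg fun b _ => w0 b).trans (h1.le.trans tot))
    rw [nsmul_eq_mul, mul_comm] at h2
    exact_mod_cast le_of_mul_le_mul_left h2 hq'
  let φ : (V → Fin q) → V → Fin N := fun r u =>
    if h : u ∈ W then ⟨q + (W.equivFin ⟨u, h⟩).1, by have := (W.equivFin ⟨u, h⟩).2; omega⟩
    else ⟨r u, by have := (r u).2; omega⟩
  have p1 : ∀ r r' u, (u ∉ W → r u = r' u) → φ r u = φ r' u := fun r r' u h => by
    by_cases hu : u ∈ W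
    · simp [φ, hu]
    · simp [φ, hu, h hu]
  have p2 : ∀ r u u', φ r u = φ r u' → u ≠ u' → u ∉ W ∧ u' ∉ W ∧ r u = r u' := by
    intro r u u' h hne
    have h1 := congrArg Fin.val h
    have := (r u).2
    have := (r u').2
    by_cases hu : u ∈ W <;> by_cases hu' : u' ∈ W <;>
      simp only [φ, hu, hu', dite_true, dite_false] at h1
    · exact absurd (congrArg Subtype.val (W.equivFin.injective (Fin.ext (by omega)) :
        (⟨u, hu⟩ : W) = ⟨u', hu'⟩)) hne
    · omega
    · omega
    · exact ⟨hu, hu', Fin.ext h1⟩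
  have : Inhabited (Fin q) := ⟨⟨0, hq⟩⟩
  obtain ⟨r, hr⟩ := rosenfeld I (fun b => supp b \ W) (fun b r => bad b (φ r)) wt hq'
    (fun b hb r r' h => dep b hb _ _ fun u hu => p1 _ _ _ fun hu' => h u (mem_sdiff.2 ⟨hu, hu'⟩))
    (fun b hb r h => by
      obtain ⟨x, hx, x', h1, h2⟩ := col b hb _ h
      exact ⟨x, mem_sdiff.2 ⟨hx, (p2 _ _ _ h2 h1).1⟩⟩)
    (fun b hb v hv => by
      by_cases h : ∃ r₁, bad b (φ r₁)
      · obtain ⟨r₁, h⟩ := h
        obtain ⟨D, d1, d2, d3⟩ := hD W φ (fun r r' u h => p1 _ _ _ fun _ => h)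
          (fun r r' u hu h => Fin.ext (by simpa [φ, hu] using h)) p2 b hb v (mem_sdiff.1 hv).1 r₁ h
        refine ⟨D, d1, d2, fun r₀ => le_of_eq_of_le ?_ (d3 r₀)⟩
        rw [← Set.ncard_coe_finset]
        simp
      · push Not at h
        exact ⟨∅, by simp, by simp, fun r₀ => by simp [h, w0]⟩)
    (fun v => by
      rw [Fintype.card_fin]
      by_cases hv : v ∈ W
      · simp [hv]
      · have : ∑ b ∈ I with v ∈ supp b, wt b ≤ q / 2 := by simpa [W] using hv
        simp only [mem_sdiff, hv, not_false_eq_true, and_true]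
        linarith)
  exact ⟨_, hr⟩

/-- The link of a pair. -/
def L (H : Finset (Finset V)) (x x' : V) : Finset V := {y | {x, x', y} ∈ H}

variable {H : Finset (Finset V)}

lemma ne_of_mem_L (h3 : ∀ e ∈ H, #e = 3) {x x' y : V} (h : y ∈ L H x x') :
    x ≠ x' ∧ x ≠ y ∧ x' ≠ y := by
  have h1 := h3 _ (mem_filter.1 h).2
  refine ⟨?_, ?_, ?_⟩ <;> rintro rfl
  · have := card_le_two (a := x) (b := y); simp at h1; omega
  · have := card_le_two (a := x') (b := x); rw [insert_eq_of_mem (by simp)] at h1; omega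
  · have := card_le_two (a := x) (b := x'); simp at h1; omega

lemma sum_L (h3 : ∀ e ∈ H, #e = 3) : ∑ p : V × V, #(L H p.1 p.2) ≤ 27 * #H := by
  rw [← card_sigma]
  refine card_le_mul_card_image_of_maps_to (f := fun t : Σ _ : V × V, V => ({t.1.1, t.1.2, t.2} : Finset V))
   
    (fun t ht => by simpa [L] using ht) _ fun e he => ?_
  refine (card_le_card_of_injOn (t := e ×ˢ e ×ˢ e) (fun t => (t.1.1, t.1.2, t.2)) ?_ ?_).trans
    (by simp [h3 e he])
  · intro t ht
    rw [← (mem_filter.1 ht).2]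
    simp
  · rintro ⟨⟨a, b⟩, c⟩ - ⟨⟨a', b'⟩, c'⟩ - h
    simp only [Prod.mk.injEq] at h
    obtain ⟨rfl, rfl, rfl⟩ := h
    rfl

omit [Fintype V] in
lemma card_le_of_det {C T : Type} (A : Finset V) (r₀ : V → C) (P : (V → C) → Prop)
    (f : (V → C) → T) (t : Finset T) (h1 : ∀ r, (∀ u ∉ A, r u = r₀ u) → P r → f r ∈ t)
    (h2 : ∀ r r', (∀ u ∉ A, r u = r' u) → P r → P r' → f r = f r' → ∀ u ∈ A, r u = r' u) :
    {r : V → C | (∀ u ∉ A, r u = r₀ u) ∧ P r}.ncard ≤ #t := by
  rw [← Set.ncard_coe_finset]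
  refine Set.ncard_le_ncard_of_injOn f (fun r hr => h1 r hr.1 hr.2)
    (fun r a r' a' h => funext fun u => ?_) t.finite_toSet
  have b : ∀ u ∉ A, r u = r' u := fun u hu => (a.1 u hu).trans (a'.1 u hu).symm
  by_cases hu : u ∈ A
  · exact h2 r r' b a.2 a'.2 h u hu
  · exact b u hu

set_option maxHeartbeats 400000 in
theorem exists_fine (h3 : ∀ e ∈ H, #e = 3) {q N D B : ℕ} (hD : 0 < D) (hN : 2 * q ≤ N)
    (hDB : D ≤ B) (hBq : D * B ≤ q) (hm : 1080 * #H ≤ D * q ^ 2)
    (Bad : Finset (Fin N) → Finset (Fin N)) (hB : ∀ Y, #Y ≤ D → #(Bad Y) ≤ B) :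
    ∃ φ : V → Fin N, ∀ x x', φ x = φ x' → (L H x x').Nonempty →
      φ x ∉ Bad ((L H x x').image φ) ∧ Set.InjOn φ (L H x x') := by
  classical
  have hq : 0 < q := (Nat.mul_pos hD (hD.trans_le hDB)).trans_le hBq
  have hq' : (0 : ℝ) < q := by positivity
  have hD' : (0 : ℝ) < D := by positivity
  have e1 : (B : ℝ) / q ≤ 1 / D := by
    rw [div_le_div_iff₀ hq' hD', one_mul, mul_comm]
    exact_mod_cast hBq
  have e2 : (D : ℝ) / q ≤ 1 / D := le_trans (by gcongr) e1
  obtain ⟨φ, hφ⟩ := reserve (Ev := (V × V) ⊕ Σ _ : V × V, V × V) hq hN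
    (({p : V × V | (L H p.1 p.2).Nonempty} : Finset _).disjSum
      (({p : V × V | #(L H p.1 p.2) ≤ D} : Finset _).sigma fun p => (L H p.1 p.2).offDiag))
    (Sum.elim (fun p => {p.1, p.2} ∪ if #(L H p.1 p.2) ≤ D then L H p.1 p.2 else ∅)
      fun t => {t.1.1, t.1.2, t.2.1, t.2.2})
    (Sum.elim (fun p φ => φ p.1 = φ p.2 ∧
        (#(L H p.1 p.2) ≤ D → φ p.1 ∈ Bad ((L H p.1 p.2).image φ)))
      fun t φ => φ t.1.1 = φ t.1.2 ∧ φ t.2.1 = φ t.2.2)
    (Sum.elim (fun p => if #(L H p.1 p.2) ≤ D then 4 * (B / q) else 1) fun _ => 2 / q)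
    (by
      rintro (p | t)
      · simp only [Sum.elim_inl]
        positivity
      · simp only [Sum.elim_inr]
        positivity)
    (by
      rintro (⟨x, x'⟩ | ⟨⟨x, x'⟩, y, y'⟩) - r r' h hb <;>
        simp only [Sum.elim_inl, Sum.elim_inr] at h hb ⊢
      · rw [← h x (by simp), ← h x' (by simp)]
        refine ⟨hb.1, fun hl => ?_⟩
        rw [← image_congr (f := r) fun u hu => h u (by simp [hl, mem_coe.1 hu])]
        exact hb.2 hl
      · rwa [← h x (by simp), ← h x' (by simp), ← h y (by simp), ← h y' (by simp)])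
    (by
      rintro (⟨x, x'⟩ | ⟨⟨x, x'⟩, y, y'⟩) hb r h
      · obtain ⟨y, hy⟩ : (L H x x').Nonempty := by simpa using hb
        exact ⟨x, by simp, x', (ne_of_mem_L h3 hy).1, h.1⟩
      · exact ⟨y, by simp, y', by simp at hb; exact hb.2.2.2, h.2⟩)
    (by
      rw [sum_disjSum, sum_sigma]
      simp only [Sum.elim_inl, Sum.elim_inr]
      have s0 : ∀ (c : ℝ) (s : Finset (V × V)), 0 ≤ c →
          ∑ p ∈ s, c / D * #(L H p.1 p.2) ≤ c / D * (27 * #H) := fun c s hc => by
        rw [← mul_sum]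
        gcongr
        exact_mod_cast (sum_le_sum_of_subset (subset_univ s)).trans (sum_L h3)
      refine (add_le_add ((sum_le_sum fun p hp => ?_).trans (s0 12 _ (by norm_num)))
        ((sum_le_sum fun p hp => ?_).trans (s0 8 _ (by norm_num)))).trans ?_
      · have a1 : 1 ≤ #(L H p.1 p.2) := card_pos.2 (mem_filter.1 hp).2
        have a2 := card_le_two (a := p.1) (b := p.2)
        split_ifs with hl
        · have a3 : (#({p.1, p.2} ∪ L H p.1 p.2) : ℝ) ≤ 3 * #(L H p.1 p.2) := by
            exact_mod_cast (card_union_le _ _).trans (by omega)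
          calc _ ≤ 4 * (1 / D : ℝ) * (3 * #(L H p.1 p.2)) := by gcongr
            _ = _ := by ring
        · rw [union_empty, one_mul, div_mul_eq_mul_div, le_div_iff₀ hD']
          exact_mod_cast by nlinarith
      · have a1 : #(L H p.1 p.2) ≤ D := (mem_filter.1 hp).2
        refine (sum_le_card_nsmul _ _ (2 / q * 4 : ℝ) fun t _ => by
          gcongr; exact_mod_cast card_le_four).trans ?_
        have a2 : (#(L H p.1 p.2).offDiag : ℝ) ≤ D * #(L H p.1 p.2) := by
          rw [offDiag_card]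
          exact_mod_cast (Nat.sub_le _ _).trans (by gcongr)
        calc _ ≤ (D * #(L H p.1 p.2)) * (2 / q * 4 : ℝ) := by rw [nsmul_eq_mul]; gcongr
          _ = 8 * (D / q) * #(L H p.1 p.2) := by ring
          _ ≤ 8 * (1 / D : ℝ) * #(L H p.1 p.2) := by gcongr
          _ = _ := by ring
      · have : (1080 * #H : ℝ) ≤ D * q ^ 2 := by exact_mod_cast hm
        rw [← add_mul, ← add_div, div_mul_eq_mul_div, div_le_iff₀ hD']
        nlinarith)
    (by
      rintro W φ p1 p2 p3 (⟨x, x'⟩ | ⟨⟨x, x'⟩, y, y'⟩) hb v hv r₁ h1 <;>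
        simp only [Sum.elim_inl, Sum.elim_inr] at hv h1 ⊢
      · obtain ⟨y, hy⟩ : (L H x x').Nonempty := by simpa using hb
        have n1 := (ne_of_mem_L h3 hy).1
        obtain ⟨w1, w2, -⟩ := p3 _ _ _ h1.1 n1
        by_cases hl : #(L H x x') ≤ D
        · simp only [hl, if_true, true_imp_iff] at hv ⊢
          have hb' : ∀ r : V → Fin q, #(Bad ((L H x x').image (φ r))) ≤ B := fun r =>
            hB _ (card_image_le.trans hl)
          by_cases hv' : v ∈ ({x, x'} : Finset V)
          · refine ⟨({x, x'} : Finset V).erase v, by simp, fun u hu => ?_, fun r₀ => ?_⟩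
            · rcases mem_insert.1 (mem_of_mem_erase hu) with rfl | hu
              · simp [w1]
              · simp [mem_singleton.1 hu, w2]
            rw [insert_erase hv', card_erase_of_mem hv', card_pair n1]
            refine (Nat.cast_le.2 ((card_le_of_det _ r₀ _ (fun r => φ r x) _ (fun r a b => ?_)
              fun r r' _ a a' b u hu => ?_).trans (hb' r₀))).trans ?_
            · rw [← image_congr (f := φ r) fun u hu => p1 _ _ _ (a u (by
                have := ne_of_mem_L h3 hu
                simp [this.2.1.symm, this.2.2.symm]))]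
              exact b.2
            · rcases mem_insert.1 hu with rfl | hu
              · exact p2 _ _ _ w1 b
              · rw [mem_singleton.1 hu]
                exact p2 _ _ _ w2 (a.1.symm.trans (b.trans a'.1))
            · have : 4 * (B / q : ℝ) * (q / 2) ^ (2 - 1) = 2 * B := by field_simp; ring
              rw [this]
              linarith [Nat.cast_nonneg (α := ℝ) B]
          · refine ⟨{x, x'}, hv', by simp [insert_subset_iff, w1, w2], fun r₀ => ?_⟩
            rw [card_pair n1]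
            refine (Nat.cast_le.2 ((card_le_of_det _ r₀ _
              (fun r => (⟨r v, φ r x⟩ : Σ _ : Fin q, Fin N)) (univ.sigma fun c =>
                Bad ((L H x x').image (φ (Function.update r₀ v c)))) (fun r a b => ?_)
              fun r r' _ a a' b u hu => ?_).trans (?_ : _ ≤ q * B))).trans ?_
            · refine mem_sigma.2 ⟨mem_univ _, ?_⟩
              rw [← image_congr (f := φ r) fun u hu => p1 _ _ _ (by
                by_cases huv : u = v
                · simp [huv]
                · have := ne_of_mem_L h3 hu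
                  rw [Function.update_of_ne huv]
                  exact a u (by simp [huv, this.2.1.symm, this.2.2.symm]))]
              exact b.2
            · simp only [Sigma.mk.injEq, heq_eq_eq] at b
              simp only [mem_insert, mem_singleton] at hu
              rcases hu with rfl | rfl | rfl
              · exact b.1
              · exact p2 _ _ _ w1 b.2
              · exact p2 _ _ _ w2 (a.1.symm.trans (b.2.trans a'.1))
            · rw [card_sigma]
              exact (sum_le_card_nsmul _ _ B fun c _ => hb' _).trans (by simp)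
            · push_cast
              exact le_of_eq (by field_simp; ring)
        · simp only [hl, if_false, union_empty, false_imp_iff, and_true] at hv ⊢
          refine ⟨∅, by simp, by simp, fun r₀ => ?_⟩
          refine (Nat.cast_le.2 (card_le_of_det _ r₀ _ (fun _ => ()) univ (by simp)
            fun r r' a b b' _ u hu => ?_)).trans (by simp)
          have c := (p3 _ _ _ b n1).2.2
          have c' := (p3 _ _ _ b' n1).2.2
          obtain rfl : u = v := by simpa using hu
          rcases mem_insert.1 hv with rfl | hv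
          · rw [c, c', a x' (by simp [n1.symm])]
          · obtain rfl := mem_singleton.1 hv
            rw [← c, ← c', a x (by simp [n1])]
      · obtain ⟨-, hy, hy', n2⟩ : #(L H x x') ≤ D ∧ y ∈ L H x x' ∧ y' ∈ L H x x' ∧ y ≠ y' := by
          simpa using hb
        obtain ⟨n1, n3, n4⟩ := ne_of_mem_L h3 hy
        obtain ⟨-, n5, n6⟩ := ne_of_mem_L h3 hy'
        have key : ∀ a a' c c' : V, a ≠ a' → c ≠ c' → a ≠ c → a ≠ c' → a' ≠ c → c ∉ W →
            c ∈ ({x, x', y, y'} : Finset V) →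
            (∀ r, φ r x = φ r x' ∧ φ r y = φ r y' → r a = r a' ∧ r c = r c') →
            ∃ E : Finset V, a ∉ E ∧ E ⊆ {x, x', y, y'} \ W ∧ ∀ r₀ : V → Fin q,
              ({r : V → Fin q | (∀ u ∉ insert a E, r u = r₀ u) ∧
                φ r x = φ r x' ∧ φ r y = φ r y'}.ncard : ℝ) ≤ 2 / q * (q / 2) ^ #E := by
          intro a a' c c' m1 m2 m3 m4 m5 m6 m7 m8
          refine ⟨{c}, by simpa using m3, singleton_subset_iff.2 (mem_sdiff.2 ⟨m7, m6⟩),
            fun r₀ => ?_⟩
          refine (Nat.cast_le.2 (card_le_of_det _ r₀ _ (fun _ => ()) univ (by simp)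
            fun r r' e b b' _ u hu => ?_)).trans (by simp [hq.ne'])
          rcases mem_insert.1 hu with rfl | hu
          · rw [(m8 r b).1, (m8 r' b').1, e a' (by simp [m1.symm, m5])]
          · rw [mem_singleton.1 hu, (m8 r b).2, (m8 r' b').2, e c' (by simp [m2.symm, m4.symm])]
        have w1 := (p3 _ _ _ h1.1 n1).1
        have w2 := (p3 _ _ _ h1.2 n2).1
        have k : ∀ r, φ r x = φ r x' ∧ φ r y = φ r y' → r x = r x' ∧ r y = r y' := fun r h =>
          ⟨(p3 _ _ _ h.1 n1).2.2, (p3 _ _ _ h.2 n2).2.2⟩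
        simp only [mem_insert, mem_singleton] at hv
        rcases hv with rfl | rfl | rfl | rfl
        · exact key v x' y y' n1 n2 n3 n5 n4 w2 (by simp) k
        · exact key v x y y' n1.symm n2 n4 n6 n3 w2 (by simp) fun r h => ⟨(k r h).1.symm, (k r h).2⟩
        · exact key v y' x x' n2 n1 n3.symm n4.symm n5.symm w1 (by simp) fun r h => (k r h).symm
        · exact key v y x x' n2.symm n1 n5.symm n6.symm n3.symm w1 (by simp) fun r h =>
            ⟨(k r h).2.symm, (k r h).1⟩)
  refine ⟨φ, fun x x' h hl => ?_⟩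
  have h1 := hφ (.inl (x, x')) (by simpa using hl)
  simp only [Sum.elim_inl, h, true_and, Classical.not_imp] at h1
  refine ⟨h ▸ h1.2, fun y hy y' hy' e => ?_⟩
  by_contra hne
  exact hφ (.inr ⟨(x, x'), y, y'⟩) (by simpa [h1.1, hne] using And.intro hy hy') ⟨h, e⟩

end Pool.Agent.Lib.MP_eb1ac4_co
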