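import Pool.Agent.Lib.MP_eb1ac4_co.Fine
import Pool.Agent.Lib.MP_eb1ac4_co.Chrom

set_option autoImplicit false

namespace Pool.Agent.Lib.MP_eb1ac4_co

open Finset

open Classical in
/-- Colours that lie in `Y` or have no twin with respect to `Y`. -/
noncomputable def Bad {N : ℕ} (χ : Finset (Fin N) → Bool) (Y : Finset (Fin N)) : Finset (Fin N) :=
  {i | ¬ (i ∉ Y ∧ ∃ t, t ∉ Y ∧ t ≠ i ∧ ∀ y ∈ Y, ∀ z ∈ Y, χ {i, y, z} = χ {t, y, z})}

lemma card_Bad {N : ℕ} (χ : Finset (Fin N) → Bool) (Y : Finset (Fin N)) :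
    #(Bad χ Y) ≤ #Y + 2 ^ (#Y * #Y) := by
  have h : #(Bad χ Y \ Y) ≤ #(univ : Finset (Y × Y → Bool)) := by
    refine card_le_card_of_injOn (fun i p => χ {i, p.1.1, p.2.1}) (fun _ _ => by simp) ?_
    intro i hi t ht h
    by_contra hne
    rw [mem_coe, mem_sdiff] at hi ht
    simp only [Bad, mem_filter, mem_univ, true_and] at hi
    exact hi.1 ⟨hi.2, t, ht.2, Ne.symm hne, fun y hy z hz => congrFun h (⟨y, hy⟩, ⟨z, hz⟩)⟩
  have := card_le_card_sdiff_add_card (s := Bad χ Y) (t := Y)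
  simp at h
  omega

variable {V : Type} [Fintype V] [DecidableEq V] {H : Finset (Finset V)}

lemma L_comm (x x' : V) : L H x x' = L H x' x := by
  simp only [L, insert_comm x x']

theorem twin {n N : ℕ} (hn : 3 ≤ n) (hA : Arrows H n) {χ : Finset (Fin N) → Bool}
    (hχ : ∀ (b : Bool) (S : Finset (Fin N)), #S = n → ∃ e ⊆ S, #e = 3 ∧ χ e ≠ b) {φ : V → Fin N}
    (hφ : ∀ x x', φ x = φ x' → (L H x x').Nonempty →
      φ x ∉ Bad χ ((L H x x').image φ) ∧ Set.InjOn φ (L H x x')) : False := by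
  classical
  have h0 : ∀ (i : Fin N) (Y : Finset (Fin N)), ∃ t, i ∉ Bad χ Y →
      i ∉ Y ∧ t ∉ Y ∧ t ≠ i ∧ ∀ y ∈ Y, ∀ z ∈ Y, χ {i, y, z} = χ {t, y, z} := fun i Y => by
    by_cases h : i ∈ Bad χ Y
    · exact ⟨i, fun h' => absurd h h'⟩
    · simp only [Bad, mem_filter, mem_univ, true_and, not_not] at h
      obtain ⟨h1, t, h2⟩ := h
      exact ⟨t, fun _ => ⟨h1, h2⟩⟩
  choose tw htw using h0
  obtain ⟨b, S, hS, h⟩ := hA fun e =>
    if h : ∃ p : V × V, p.1 ∈ e ∧ p.2 ∈ e ∧ p.1 ≠ p.2 ∧ φ p.1 = φ p.2 then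
      χ (insert (tw (φ h.choose.1) ((L H h.choose.1 h.choose.2).image φ)) (e.image φ))
    else χ (e.image φ)
  by_cases hi : Set.InjOn φ S
  · refine no_mono hχ hi hS.ge b fun e he h3 => ?_
    have := (h e he h3).2
    rwa [dif_neg fun ⟨p, a, a', c, d⟩ => c (hi (he a) (he a') d)] at this
  obtain ⟨x, hx, x', hx', h3, h4⟩ : ∃ x ∈ S, ∃ x' ∈ S, φ x = φ x' ∧ x ≠ x' := by
    simpa [Set.InjOn] using hi
  have hL : ∀ y ∈ S, y ≠ x → y ≠ x' → y ∈ L H x x' := fun y hy a a' => by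
    simpa [L] using (h {x, x', y} (by simp [insert_subset_iff, *])
      (card_eq_three.2 ⟨_, _, _, h4, a.symm, a'.symm, rfl⟩)).1
  obtain ⟨y₀, hy₀, hy₁⟩ := exists_mem_notMem_of_card_lt_card
    (s := ({x, x'} : Finset V)) (t := S) (card_le_two.trans_lt (by omega))
  simp only [mem_insert, mem_singleton, not_or] at hy₁
  obtain ⟨h5, h6⟩ := hφ x x' h3 ⟨y₀, hL y₀ hy₀ hy₁.1 hy₁.2⟩
  obtain ⟨h7, h8, h9, h10⟩ := htw _ _ h5
  set t := tw (φ x) ((L H x x').image φ) with ht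
  have hm : ∀ y ∈ S, y ≠ x → y ≠ x' → φ y ∈ (L H x x').image φ := fun y hy a a' =>
    mem_image_of_mem _ (hL y hy a a')
  have hu : ∀ u ∈ S, ∀ u' ∈ S, u ≠ u' → φ u = φ u' → u = x ∧ u' = x' ∨ u = x' ∧ u' = x := by
    intro u a u' a' c d
    have k : ∀ u ∈ S, φ u = φ x → u = x ∨ u = x' := fun u a c => by
      by_contra h'
      push Not at h'
      exact h7 (c ▸ hm u a h'.1 h'.2)
    by_cases e : φ u = φ x
    · rcases k u a e with f | f <;> rcases k u' a' (d.symm.trans e) with f' | f'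
      exacts [absurd (f.trans f'.symm) c, Or.inl ⟨f, f'⟩, Or.inr ⟨f, f'⟩, absurd (f.trans f'.symm) c]
    · exact absurd (h6 (hL u a (by rintro rfl; exact e rfl) (by rintro rfl; exact e h3.symm))
        (hL u' a' (by rintro rfl; exact e d) (by rintro rfl; exact e (d.trans h3.symm))) d) c
  have ht' : ∀ u ∈ S, φ u ≠ t := fun u a c => by
    by_cases e : u = x
    · exact h9 (by rw [← c, e])
    by_cases e' : u = x'
    · exact h9 (by rw [← c, e', h3])
    exact h8 (c ▸ hm u a e e')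
  refine no_mono hχ (S := S) (f := Function.update φ x' t) (fun u a u' a' c => ?_) hS.ge b
    fun e he h3' => ?_
  · by_contra d
    by_cases e : u = x'
    · rw [e, Function.update_self, Function.update_of_ne fun e' => d (e.trans e'.symm)] at c
      exact ht' u' a' c.symm
    by_cases e' : u' = x'
    · rw [e', Function.update_self, Function.update_of_ne e] at c
      exact ht' u a c
    rw [Function.update_of_ne e, Function.update_of_ne e'] at c
    rcases hu u a u' a' d c with f | f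
    exacts [e' f.2, e f.1]
  have h11 := (h e he h3').2
  by_cases a : x ∈ e ∧ x' ∈ e
  · have a1 : ∃ p : V × V, p.1 ∈ e ∧ p.2 ∈ e ∧ p.1 ≠ p.2 ∧ φ p.1 = φ p.2 := ⟨(x, x'), a.1, a.2, h4, h3⟩
    rw [dif_pos a1] at h11
    obtain ⟨c1, c2, c3, c4⟩ := a1.choose_spec
    have a2 : tw (φ a1.choose.1) ((L H a1.choose.1 a1.choose.2).image φ) = t := by
      rcases hu _ (he c1) _ (he c2) c3 c4 with f | f <;> rw [f.1, f.2]
      rw [← h3, L_comm]
    rw [a2] at h11
    rw [← h11]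
    congr 1
    ext i
    simp only [mem_image, mem_insert]
    constructor
    · rintro ⟨u, c, rfl⟩
      by_cases d : u = x'
      · simp [d]
      · exact Or.inr ⟨u, c, (Function.update_of_ne d _ _).symm⟩
    · rintro (rfl | ⟨u, c, rfl⟩)
      · exact ⟨x', a.2, by simp⟩
      · by_cases d : u = x'
        · exact ⟨x, a.1, by rw [Function.update_of_ne h4, d, h3]⟩
        · exact ⟨u, c, Function.update_of_ne d _ _⟩
  rw [dif_neg fun ⟨p, c1, c2, c3, c4⟩ => by
    rcases hu _ (he c1) _ (he c2) c3 c4 with f | f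
    exacts [a ⟨f.1 ▸ c1, f.2 ▸ c2⟩, a ⟨f.2 ▸ c2, f.1 ▸ c1⟩]] at h11
  by_cases a' : x' ∈ e
  · obtain ⟨y, z, hyz, c⟩ := card_eq_two.1 (show #(e.erase x') = 2 by
      rw [card_erase_of_mem a', h3'])
    have c1 : y ∈ e.erase x' := by simp [c]
    have c2 : z ∈ e.erase x' := by simp [c]
    rw [mem_erase] at c1 c2
    rw [← insert_erase a', c] at h11 ⊢
    simp only [image_insert, image_singleton, Function.update_self, Function.update_of_ne c1.1,
      Function.update_of_ne c2.1] at h11 ⊢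
    rw [← h11, ← h3]
    exact (h10 _ (hm y (he c1.2) (by rintro rfl; exact a ⟨c1.2, a'⟩) c1.1) _
      (hm z (he c2.2) (by rintro rfl; exact a ⟨c2.2, a'⟩) c2.1)).symm
  · rw [← h11]
    exact congrArg χ (image_congr fun u c => Function.update_of_ne (by rintro rfl; exact a' c) _ _)

theorem sqrt_bound (h3 : ∀ e ∈ H, #e = 3) {n D : ℕ} (hn : 3 ≤ n) (hA : Arrows H n)
    (hD : 0 < D) (hr : 16 ^ (D * D) ≤ R n) : D * R n ^ 2 ≤ 10000 * #H := by
  by_contra hc
  have h1 : D ≤ D * D := Nat.le_mul_self D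
  have h2 : D < 2 ^ (D * D) := h1.trans_lt Nat.lt_two_pow_self
  have h4 : 8 * D ≤ 8 ^ (D * D) := by
    obtain ⟨D, rfl⟩ : ∃ E, D = E + 1 := ⟨D - 1, by omega⟩
    refine le_trans ?_ (Nat.pow_le_pow_right (by norm_num) h1)
    have := Nat.lt_pow_self (n := D) (a := 8) (by norm_num)
    rw [pow_succ]
    omega
  rw [show 16 = 2 * 8 by norm_num, mul_pow] at hr
  have h5 : 16 ≤ R n := le_trans (by nlinarith) hr
  have h6 : R n ≤ 3 * ((R n - 1) / 2) := by omega
  obtain ⟨χ, hχ⟩ := exists_good (n := n) (k := R n - 1) (by omega)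
  obtain ⟨φ, hφ⟩ := exists_fine h3 (q := (R n - 1) / 2) (N := R n - 1) (B := D + 2 ^ (D * D)) hD
    (by omega) (by omega) (by nlinarith)
    (by have := Nat.mul_le_mul_left D (Nat.pow_le_pow_left h6 2); nlinarith) (Bad χ)
    fun Y hY => (card_Bad χ Y).trans (by gcongr; norm_num)
  exact twin hn hA hχ hφ

theorem sqrt_log (h3 : ∀ e ∈ H, #e = 3) {n : ℕ} (hn : 3 ≤ n) (hA : Arrows H n) :
    (R n : ℝ) ^ 2 * √(Real.log (R n)) ≤ 40000 * #H := by
  have h0 : 1 ≤ #H := by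
    obtain ⟨b, S, hS, h⟩ := hA fun _ => true
    obtain ⟨e, he, h3⟩ := exists_subset_card_eq (hS ▸ hn : 3 ≤ #S)
    exact card_pos.2 ⟨e, (h e he h3).1⟩
  have h1 : (1 : ℝ) ≤ #H := by exact_mod_cast h0
  have h2 : ∀ k : ℕ, R n ≤ 16 ^ (k * k) → √(Real.log (R n)) ≤ 2 * k := fun k hk => by
    refine Real.sqrt_le_iff.2 ⟨by positivity, ?_⟩
    rcases (R n).eq_zero_or_pos with h | h
    · rw [h]; simp
    have : Real.log (R n) ≤ Real.log (2 ^ (4 * (k * k))) := by
      gcongr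
      rw [pow_mul]
      exact_mod_cast hk
    rw [Real.log_pow] at this
    have h5 := Real.log_two_lt_d9
    push_cast at this
    nlinarith [mul_self_nonneg (k : ℝ)]
  by_cases hr : 16 ≤ R n
  · set D := Nat.sqrt (Nat.log 16 (R n))
    have a1 : 0 < D := Nat.sqrt_pos.2 (Nat.log_pos (by norm_num) hr)
    have a2 := sqrt_bound h3 hn hA a1 ((Nat.pow_le_pow_right (by norm_num) (Nat.sqrt_le _)).trans
      (Nat.pow_log_le_self 16 (by omega)))
    have a3 := h2 (D + 1) ((Nat.lt_pow_succ_log_self (b := 16) (by norm_num) _).le.trans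
      (Nat.pow_le_pow_right (by norm_num) (Nat.lt_succ_sqrt _)))
    have a4 : (D * R n ^ 2 : ℝ) ≤ 10000 * #H := by exact_mod_cast a2
    have a5 : (1 : ℝ) ≤ D := by exact_mod_cast a1
    push_cast at a3
    nlinarith [sq_nonneg (R n : ℝ), mul_le_mul_of_nonneg_left a3 (sq_nonneg (R n : ℝ))]
  · have a1 := h2 1 (by omega)
    have a2 : (R n : ℝ) ≤ 16 := by exact_mod_cast (not_le.1 hr).le
    calc _ ≤ (16 : ℝ) ^ 2 * (2 * (1 : ℕ)) := by gcongr
      _ ≤ _ := by push_cast; linarith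

end Pool.Agent.Lib.MP_eb1ac4_co
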